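import Pool.Agent.H20.TU.LNU

/-!
# Row BIJ of tum_modules: the places of the points of a block are a bijection
-/

set_option autoImplicit false

namespace Pool.Agent.H20.TU

open Pool.Agent.H85.TU

variable {ι : Type} {ar : ι → ℕ} {D : ι → Type} {x : Str ar D ℕ}

theorem orb_refl (a : ℕ) : Orb x a a := ⟨Equiv.refl ℕ, fun _ _ => rfl, rfl⟩

theorem orb_symm {a b : ℕ} (h : Orb x a b) : Orb x b a := by
  obtain ⟨g, hg, hgab⟩ := h
  refine ⟨g.symm, ?_, ?_⟩
  · intro i v
    have h1 := hg i (g.symm ∘ v)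
    rw [← h1]
    congr 1
    funext k
    simp
  · rw [← hgab]
    simp

theorem orb_trans {a b c : ℕ} (h1 : Orb x a b) (h2 : Orb x b c) : Orb x a c := by
  obtain ⟨g, hg, hgab⟩ := h1
  obtain ⟨k, hk, hkbc⟩ := h2
  refine ⟨g.trans k, ?_, ?_⟩
  · intro i v
    have h3 := hk i (g ∘ v)
    rw [hg i v] at h3
    exact h3
  · rw [← hkbc, ← hgab]
    rfl

theorem orb_swap {a b : ℕ} (h : Orb x a b) (m : ℕ) : Orb x m (Equiv.swap a b m) := by
  by_cases h1 : m = a
  · subst h1
    rw [Equiv.swap_apply_left]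
    exact h
  · by_cases h2 : m = b
    · subst h2
      rw [Equiv.swap_apply_right]
      exact orb_symm h
    · rw [Equiv.swap_apply_of_ne_of_ne h1 h2]
      exact orb_refl m

theorem orb_sg (T : Dat x) (m : ℕ) : Orb x m (sg T m) := by
  unfold sg
  rw [Equiv.Perm.mul_apply]
  have h1 : Orb x (Equiv.swap T.z T.z' T.u) T.u' :=
    orb_trans (orb_symm (orb_swap T.oz T.u)) T.ou
  exact orb_trans (orb_swap T.oz m) (orb_swap h1 _)

theorem fx_of_orb {a b : ℕ} (h : Orb x a b) (ha : Fx x a) : Fx x b := by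
  have h1 := ha b h
  rw [h1]
  exact ha

theorem mm_not_fx (T : Dat x) : ∀ q : Q, Val T q → ¬ Fx x (mm T q)
  | .g, _ => T.nz
  | .e _, _ => T.nz
  | .f _, _ => T.nu
  | .new _ _ _, h => h.2.2.2.1

theorem pl_ne (T : Dat x) (a b : Q) (ha : Val T a) (hb : Val T b) :
    (pl T a b).1 ≠ (pl T a b).2 := by
  unfold pl
  split
  · exact T.zu
  · exact (T.hρ _ _ (mm_not_fx T _ ha) (mm_not_fx T _ hb)).2.2

theorem gen_ne {a b : Q} (h : Gen a b) : b ≠ a := by
  intro h1
  have h2 := h.1
  rw [h1] at h2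
  exact lt_asymm' h2 h2

theorem bp_left (T : Dat x) (B : Blk T) : bp B B.1.1 = (pl T B.1.1 B.1.2).1 := by
  unfold bp
  rw [if_pos rfl]

theorem bp_right (T : Dat x) (B : Blk T) : bp B B.1.2 = (pl T B.1.1 B.1.2).2 := by
  unfold bp
  rw [if_neg (gen_ne B.2.2.2), if_pos rfl]

theorem bp_new (T : Dat x) (B : Blk T) (v : ℕ) : bp B (.new B.1.1 B.1.2 v) = v := by
  unfold bp
  rw [if_neg (new_ne_left _ _ _), if_neg (new_ne_right _ _ _)]
  rfl

theorem bp_inj (T : Dat x) (B : Blk T) (a b : Q) (ha : Val T a) (hb : Val T b)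
    (hia : In B.1.1 B.1.2 a) (hib : In B.1.1 B.1.2 b) (h : bp B a = bp B b) : a = b := by
  have hpl := pl_ne T B.1.1 B.1.2 B.2.1 B.2.2.1
  rcases hia with hia | hia | ⟨v, hia⟩
  · rcases hib with hib | hib | ⟨w, hib⟩
    · rw [hia, hib]
    · rw [hia, hib, bp_left, bp_right] at h
      exact (hpl h).elim
    · rw [hia, hib, bp_left, bp_new] at h
      rw [hib] at hb
      exact (hb.2.2.2.2.1 h.symm).elim
  · rcases hib with hib | hib | ⟨w, hib⟩
    · rw [hia, hib, bp_left, bp_right] at h
      exact (hpl h.symm).elim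
    · rw [hia, hib]
    · rw [hia, hib, bp_right, bp_new] at h
      rw [hib] at hb
      exact (hb.2.2.2.2.2 h.symm).elim
  · rcases hib with hib | hib | ⟨w, hib⟩
    · rw [hia, hib, bp_left, bp_new] at h
      rw [hia] at ha
      exact (ha.2.2.2.2.1 h).elim
    · rw [hia, hib, bp_right, bp_new] at h
      rw [hia] at ha
      exact (ha.2.2.2.2.2 h).elim
    · rw [hia, hib, bp_new, bp_new] at h
      rw [hia, hib, h]

theorem pos_inr (A : ℕ → ℕ → Prop) (T : Dat x) (B : Blk T) (p : Pt T) (k : ℕ)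
    (h : p.1 = Sum.inr k) : pos A B p = k := by
  unfold pos
  rw [h]

open Classical in
theorem pos_inl (A : ℕ → ℕ → Prop) (T : Dat x) (B : Blk T) (p : Pt T) (q : Q)
    (h : p.1 = Sum.inl q) : pos A B p = if Tws A B then sg T (bp B q) else bp B q := by
  unfold pos
  rw [h]

theorem val_of (T : Dat x) (p : Pt T) (q : Q) (h : p.1 = Sum.inl q) : Val T q := by
  have h1 := p.2
  rw [h] at h1
  exact h1

theorem fx_of (T : Dat x) (p : Pt T) (k : ℕ) (h : p.1 = Sum.inr k) : Fx x k := by
  have h1 := p.2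
  rw [h] at h1
  exact h1

theorem mix (hORB : T_ORB) (A : ℕ → ℕ → Prop) (T : Dat x) (B : Blk T) (p q : Pt T) (a : Q) (k : ℕ)
    (hp : p.1 = Sum.inl a) (hq : q.1 = Sum.inr k) (hBp : Mem B p)
    (h : pos A B p = pos A B q) : False := by
  obtain ⟨h1, h2⟩ := hORB ι ar D x T A B p a hp hBp
  rw [h, pos_inr A T B q k hq] at h1
  exact h2 (fx_of_orb (orb_symm h1) (fx_of T q k hq))

open Classical in
theorem pf_BIJ (hORB : T_ORB) : T_BIJ := by
  intro ι ar D x T A B
  constructor
  · intro p q hBp hBq h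
    rcases hp : p.1 with a | k
    · rcases hq : q.1 with b | l
      · apply Subtype.ext
        rw [hp, hq]
        congr 1
        rw [pos_inl A T B p a hp, pos_inl A T B q b hq] at h
        apply bp_inj T B a b (val_of T p a hp) (val_of T q b hq) (hBp a hp) (hBq b hq)
        by_cases ht : Tws A B
        · rw [if_pos ht, if_pos ht] at h
          exact (sg T).injective h
        · rw [if_neg ht, if_neg ht] at h
          exact h
      · exact (mix hORB A T B p q a l hp hq hBp h).elim
    · rcases hq : q.1 with b | l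
      · exact (mix hORB A T B q p b k hq hp hBq h.symm).elim
      · apply Subtype.ext
        rw [hp, hq]
        congr 1
        rw [pos_inr A T B p k hp, pos_inr A T B q l hq] at h
        exact h
  · intro n
    by_cases hn : Fx x n
    · refine ⟨kP T n hn, ?_, pos_inr A T B _ n rfl⟩
      intro q hq
      exact (Sum.inr_ne_inl hq).elim
    · -- the place before the twist
      obtain ⟨m, hm, hmn⟩ : ∃ m, ¬ Fx x m ∧ (if Tws A B then sg T m else m) = n := by
        by_cases ht : Tws A B
        · refine ⟨(sg T).symm n, ?_, ?_⟩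
          · intro hf
            apply hn
            have h1 := orb_sg T ((sg T).symm n)
            rw [Equiv.apply_symm_apply] at h1
            exact fx_of_orb h1 hf
          · rw [if_pos ht, Equiv.apply_symm_apply]
        · exact ⟨n, hn, if_neg ht⟩
      by_cases h1 : m = (pl T B.1.1 B.1.2).1
      · refine ⟨⟨Sum.inl B.1.1, B.2.1⟩, ?_, ?_⟩
        · intro q hq
          left
          exact (Sum.inl_injective hq).symm
        · rw [pos_inl A T B _ B.1.1 rfl, bp_left, ← h1]
          exact hmn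
      by_cases h2 : m = (pl T B.1.1 B.1.2).2
      · refine ⟨⟨Sum.inl B.1.2, B.2.2.1⟩, ?_, ?_⟩
        · intro q hq
          right
          left
          exact (Sum.inl_injective hq).symm
        · rw [pos_inl A T B _ B.1.2 rfl, bp_right, ← h2]
          exact hmn
      · refine ⟨⟨Sum.inl (.new B.1.1 B.1.2 m), B.2.1, B.2.2.1, B.2.2.2, hm, h1, h2⟩, ?_, ?_⟩
        · intro q hq
          right
          right
          exact ⟨m, (Sum.inl_injective hq).symm⟩
        · rw [pos_inl A T B _ (.new B.1.1 B.1.2 m) rfl, bp_new]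
          exact hmn

end Pool.Agent.H20.TU
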