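import Pool.Agent.H85.TU.Targets

/-!
# Row LNU of tum_modules: two points are in at most one block
-/

set_option autoImplicit false

namespace Pool.Agent.H20.TU

open Pool.Agent.H85.TU

theorem code_lt_left (c d : Q) (v : ℕ) : code c < code (.new c d v) := by
  have h1 := Nat.left_le_pair (code c) (code d)
  have h2 := Nat.left_le_pair (Nat.pair (code c) (code d)) v
  simp only [code]
  omega

theorem code_lt_right (c d : Q) (v : ℕ) : code d < code (.new c d v) := by
  have h1 := Nat.right_le_pair (code c) (code d)
  have h2 := Nat.left_le_pair (Nat.pair (code c) (code d)) v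
  simp only [code]
  omega

theorem new_ne_left (c d : Q) (v : ℕ) : Q.new c d v ≠ c := by
  intro h
  have h1 := code_lt_left c d v
  rw [h] at h1
  exact lt_irrefl _ h1

theorem new_ne_right (c d : Q) (v : ℕ) : Q.new c d v ≠ d := by
  intro h
  have h1 := code_lt_right c d v
  rw [h] at h1
  exact lt_irrefl _ h1

theorem lt_asymm' {a b : Q} (h1 : lt a b) (h2 : lt b a) : False := by
  unfold lt at h1 h2
  omega

/-- the point is in the block generated by the pair -/
def In (a0 b0 q : Q) : Prop := q = a0 ∨ q = b0 ∨ ∃ v, q = .new a0 b0 v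

theorem key {a0 b0 c0 d0 a b : Q} {v : ℕ} (hg : Gen c0 d0) (hab : a ≠ b)
    (ha : a = .new a0 b0 v) (hb : In a0 b0 b) (ha' : In c0 d0 a) (hb' : In c0 d0 b) :
    a0 = c0 ∧ b0 = d0 := by
  have hfin : (a = c0 ∨ a = d0) → a0 = c0 ∧ b0 = d0 := by
    intro hac
    rcases hb' with hb' | hb' | ⟨w, hb'⟩
    · -- b = c0
      exfalso
      rcases hac with hac | hac
      · exact hab (hac.trans hb'.symm)
      · apply hg.2
        right
        refine ⟨a0, b0, v, hac.symm.trans ha, ?_⟩
        rw [← hb']
        exact hb
    · -- b = d0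
      exfalso
      rcases hac with hac | hac
      · apply hg.2
        left
        refine ⟨a0, b0, v, hac.symm.trans ha, ?_⟩
        rw [← hb']
        exact hb
      · exact hab (hac.trans hb'.symm)
    · -- b = new c0 d0 w
      rcases hb with hb | hb | ⟨w', hb⟩
      · exfalso
        have h1 := code_lt_left a0 b0 v
        rw [← ha, ← hb] at h1
        have h2 : code a < code b := by
          rw [hb']
          rcases hac with hac | hac
          · rw [hac]
            exact code_lt_left c0 d0 w
          · rw [hac]
            exact code_lt_right c0 d0 w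
        omega
      · exfalso
        have h1 := code_lt_right a0 b0 v
        rw [← ha, ← hb] at h1
        have h2 : code a < code b := by
          rw [hb']
          rcases hac with hac | hac
          · rw [hac]
            exact code_lt_left c0 d0 w
          · rw [hac]
            exact code_lt_right c0 d0 w
        omega
      · rw [hb] at hb'
        injection hb' with h1 h2 h3
        exact ⟨h1, h2⟩
  rcases ha' with ha' | ha' | ⟨w, ha'⟩
  · exact hfin (Or.inl ha')
  · exact hfin (Or.inr ha')
  · rw [ha] at ha'
    injection ha' with h1 h2 h3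
    exact ⟨h1, h2⟩

theorem uniq {a0 b0 c0 d0 a b : Q} (hg : Gen a0 b0) (hg' : Gen c0 d0) (hab : a ≠ b)
    (ha : In a0 b0 a) (hb : In a0 b0 b) (ha' : In c0 d0 a) (hb' : In c0 d0 b) :
    a0 = c0 ∧ b0 = d0 := by
  by_cases h1 : ∃ v, a = .new a0 b0 v
  · obtain ⟨v, hv⟩ := h1
    exact key hg' hab hv hb ha' hb'
  by_cases h2 : ∃ v, b = .new a0 b0 v
  · obtain ⟨v, hv⟩ := h2
    exact key hg' hab.symm hv ha hb' ha'
  by_cases h3 : ∃ v, a = .new c0 d0 v
  · obtain ⟨v, hv⟩ := h3
    have h := key hg hab hv hb' ha hb
    exact ⟨h.1.symm, h.2.symm⟩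
  by_cases h4 : ∃ v, b = .new c0 d0 v
  · obtain ⟨v, hv⟩ := h4
    have h := key hg hab.symm hv ha' hb ha
    exact ⟨h.1.symm, h.2.symm⟩
  have e1 : a = a0 ∨ a = b0 := by
    rcases ha with h | h | h
    · exact Or.inl h
    · exact Or.inr h
    · exact (h1 h).elim
  have e2 : b = a0 ∨ b = b0 := by
    rcases hb with h | h | h
    · exact Or.inl h
    · exact Or.inr h
    · exact (h2 h).elim
  have e3 : a = c0 ∨ a = d0 := by
    rcases ha' with h | h | h
    · exact Or.inl h
    · exact Or.inr h
    · exact (h3 h).elim
  have e4 : b = c0 ∨ b = d0 := by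
    rcases hb' with h | h | h
    · exact Or.inl h
    · exact Or.inr h
    · exact (h4 h).elim
  rcases e1 with e1 | e1
  · rcases e2 with e2 | e2
    · exact (hab (e1.trans e2.symm)).elim
    · rcases e3 with e3 | e3
      · rcases e4 with e4 | e4
        · exact (hab (e3.trans e4.symm)).elim
        · exact ⟨e1.symm.trans e3, e2.symm.trans e4⟩
      · rcases e4 with e4 | e4
        · exfalso
          have l1 := hg.1
          have l2 := hg'.1
          rw [← e1, ← e2] at l1
          rw [← e3, ← e4] at l2
          exact lt_asymm' l1 l2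
        · exact (hab (e3.trans e4.symm)).elim
  · rcases e2 with e2 | e2
    · rcases e3 with e3 | e3
      · rcases e4 with e4 | e4
        · exact (hab (e3.trans e4.symm)).elim
        · exfalso
          have l1 := hg.1
          have l2 := hg'.1
          rw [← e1, ← e2] at l1
          rw [← e3, ← e4] at l2
          exact lt_asymm' l1 l2
      · rcases e4 with e4 | e4
        · exact ⟨e2.symm.trans e4, e1.symm.trans e3⟩
        · exact (hab (e3.trans e4.symm)).elim
    · exact (hab (e1.trans e2.symm)).elim

theorem pf_LNU : T_LNU := by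
  intro ι ar D x T B B' p q a b hp hq hab hBp hBq hBp' hBq'
  have h := uniq B.2.2.2 B'.2.2.2 hab (hBp a hp) (hBq b hq) (hBp' a hp) (hBq' b hq)
  exact Subtype.ext (Prod.ext h.1 h.2)

end Pool.Agent.H20.TU
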